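import Pool.Agent.N290.RK.Stm

/-!
# Project RK (helper290), part R2 (helper401): cut-off functions
-/

set_option autoImplicit false
set_option linter.all false

namespace Pool.Agent.N401.RK

open Metric

theorem bd_fderiv {F : Type*} [NormedAddCommGroup F] [NormedSpace ℝ F] (g : ℂ → F)
    (hg : ContDiff ℝ 1 g) (hs : HasCompactSupport g) :
    ∃ L : ℝ, ∀ w, ‖fderiv ℝ g w‖ ≤ L := by
  have hc : Continuous (fderiv ℝ g) := hg.continuous_fderiv (by norm_num)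
  have hs1 : HasCompactSupport (fderiv ℝ g) := hs.fderiv (𝕜 := ℝ)
  exact hs1.exists_bound_of_continuous hc

theorem cs_fderiv {F : Type*} [NormedAddCommGroup F] [NormedSpace ℝ F] (g : ℂ → F)
    (hs : HasCompactSupport g) : HasCompactSupport (fderiv ℝ g) := hs.fderiv (𝕜 := ℝ)

theorem exists_bump (ε₁ ε₂ : ℝ) (h1 : 0 < ε₁) (h2 : ε₁ < ε₂) : ∃ φ : ℂ → ℝ, ContDiff ℝ 2 φ ∧
    HasCompactSupport φ ∧ (∀ w, 0 ≤ φ w ∧ φ w ≤ 1) ∧ (∀ w, ‖w‖ ≤ ε₁ → φ w = 1) ∧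
    (∀ w, ε₂ ≤ ‖w‖ → φ w = 0) := by
  obtain ⟨f, hf1, hf2⟩ : ∃ f : ContDiffBump (0 : ℂ), f.rIn = ε₁ ∧ f.rOut = ε₂ :=
    ⟨⟨ε₁, ε₂, h1, h2⟩, rfl, rfl⟩
  refine ⟨fun w => f w, f.contDiff, f.hasCompactSupport, fun w => ⟨f.nonneg, f.le_one⟩, ?_, ?_⟩
  · intro w hw
    refine f.one_of_mem_closedBall ?_
    rw [hf1, mem_closedBall, dist_zero_right]
    exact hw
  · intro w hw
    refine f.zero_of_le_dist ?_
    rw [hf2, dist_zero_right]
    exact hw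

theorem R2_proof : Pool.Agent.N290.RK.R2 := by
  intro ε₁ ε₂ h1 h2
  obtain ⟨φ, hc, hs, h3, h4, h5⟩ := exists_bump ε₁ ε₂ h1 h2
  obtain ⟨L1, hL1⟩ := bd_fderiv φ (hc.of_le (by norm_num)) hs
  have hc1 : ContDiff ℝ 1 (fderiv ℝ φ) := hc.fderiv_right (by norm_num)
  obtain ⟨L2, hL2⟩ := bd_fderiv (fderiv ℝ φ) hc1 (cs_fderiv φ hs)
  exact ⟨φ, max (max L1 L2) 1, hc, lt_of_lt_of_le one_pos (le_max_right _ _), h3, h4, h5,
    fun w => (hL1 w).trans ((le_max_left _ _).trans (le_max_left _ _)),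
    fun w => (hL2 w).trans ((le_max_right _ _).trans (le_max_left _ _))⟩

end Pool.Agent.N401.RK
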